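import Pool.Agent.W559.Wr.StmR

/-!
Wreath products, relative version.
-/

set_option autoImplicit false
set_option linter.unusedSectionVars false

open TensorProduct

universe u

namespace Pool.Agent.W351.WR

open Pool.Agent.W559.Wr

section general

variable {k K M N : Type u} [Field k] [Field K] [Algebra k K] [Field M] [Algebra k M] [Field N]
  [Algebra k N] {ι : Type}

/-- the field where two homomorphisms agree -/
def eqF (f g : M →ₐ[k] N) : IntermediateField k M where
  toSubalgebra := AlgHom.equalizer f g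
  inv_mem' := by
    intro x hx
    have hx' : f x = g x := hx
    show f x⁻¹ = g x⁻¹
    rw [map_inv₀, map_inv₀, hx']

theorem mem_eqF {f g : M →ₐ[k] N} {x : M} : x ∈ eqF f g ↔ f x = g x := Iff.rfl

theorem agree (e : ι → K →ₐ[k] M) (f g : M →ₐ[k] N) (h : ∀ i x, f (e i x) = g (e i x)) :
    ∀ x ∈ ⨆ i, (e i).fieldRange, f x = g x := by
  intro x hx
  have h1 : ⨆ i, (e i).fieldRange ≤ eqF f g := by
    refine iSup_le fun i => ?_
    rintro y ⟨z, rfl⟩
    exact h i z
  exact h1 hx

theorem maps (e : ι → K →ₐ[k] M) (f : M →ₐ[k] N) (L : IntermediateField k N)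
    (h : ∀ i x, f (e i x) ∈ L) : ∀ x ∈ ⨆ i, (e i).fieldRange, f x ∈ L := by
  intro x hx
  have h1 : ⨆ i, (e i).fieldRange ≤ L.comap f := by
    refine iSup_le fun i => ?_
    rintro y ⟨z, rfl⟩
    exact h i z
  exact h1 hx

/-- restriction of the codomain -/
def rs (f : K →ₐ[k] M) (L : IntermediateField k M) (h : ∀ x, f x ∈ L) : K →ₐ[k] L where
  toFun x := ⟨f x, h x⟩
  map_one' := Subtype.ext (map_one f)
  map_mul' x y := Subtype.ext (map_mul f x y)
  map_zero' := Subtype.ext (map_zero f)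
  map_add' x y := Subtype.ext (map_add f x y)
  commutes' x := Subtype.ext (f.commutes x)

theorem val_rs (f : K →ₐ[k] M) (L : IntermediateField k M) (h : ∀ x, f x ∈ L) (x : K) :
    ((rs f L h x : L) : M) = f x := rfl

theorem val_comp_rs (f : K →ₐ[k] M) (L : IntermediateField k M) (h : ∀ x, f x ∈ L) :
    L.val.comp (rs f L h) = f := by
  ext x
  rfl

theorem gen_rs (f : ι → K →ₐ[k] M) (L : IntermediateField k M) (h : ∀ i x, f i x ∈ L)
    (hL : L = ⨆ i, (f i).fieldRange) : ⨆ i, (rs (f i) L (h i)).fieldRange = ⊤ := by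
  rw [eq_top_iff]
  intro x _
  have h1 : (x : M) ∈ (⨆ i, (rs (f i) L (h i)).fieldRange).map L.val := by
    rw [IntermediateField.map_iSup]
    have h2 : ∀ i, ((rs (f i) L (h i)).fieldRange).map L.val = (f i).fieldRange := by
      intro i
      rw [AlgHom.map_fieldRange, val_comp_rs]
    simp only [h2]
    rw [← hL]
    exact x.2
  obtain ⟨y, hy, hyx⟩ := h1
  have : y = x := Subtype.ext hyx
  rw [← this]
  exact hy

theorem mulM_comp {J : Type} [Fintype J] {K : J → Type u} [∀ j, Field (K j)]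
    [∀ j, Algebra k (K j)] (e : ∀ j, K j →ₐ[k] M) (φ : M →ₐ[k] N) :
    mulM (fun j => φ.comp (e j)) = φ.toLinearMap ∘ₗ mulM e := by
  apply PiTensorProduct.ext
  ext x
  simp [mulM]

theorem LDis_of_comp {J : Type} [Fintype J] {K : J → Type u} [∀ j, Field (K j)]
    [∀ j, Algebra k (K j)] (e : ∀ j, K j →ₐ[k] M) (φ : M →ₐ[k] N)
    (h : LDis fun j => φ.comp (e j)) : LDis e := by
  unfold LDis at h ⊢
  rw [mulM_comp] at h
  exact Function.Injective.of_comp h

end general

section setup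

variable {k K M : Type u} [Field k] [Field K] [Algebra k K] [Field M] [Algebra k M]
  {ι ι' : Type} [Fintype ι] [Fintype ι'] (e : ι × ι' → K →ₐ[k] M)

/-- the blocks -/
def Lb (j : ι') : IntermediateField k M := ⨆ i, (e (i, j)).fieldRange

theorem mem_Lb (i : ι) (j : ι') (x : K) : e (i, j) x ∈ Lb e j := by
  have h : (e (i, j)).fieldRange ≤ Lb e j := le_iSup (fun i => (e (i, j)).fieldRange) i
  exact h ⟨x, rfl⟩

theorem iSup_Lb (hgen : ⨆ p, (e p).fieldRange = ⊤) : ⨆ j, Lb e j = ⊤ := by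
  rw [eq_top_iff, ← hgen]
  refine iSup_le fun p => ?_
  obtain ⟨i, j⟩ := p
  exact le_trans (le_iSup (fun i => (e (i, j)).fieldRange) i) (le_iSup (fun j => Lb e j) j)

theorem Lb_eq (j : ι') : (⨆ p : {p : ι × ι' // p.2 = j}, (e p).fieldRange) = Lb e j := by
  apply le_antisymm
  · refine iSup_le fun p => ?_
    obtain ⟨⟨i, j'⟩, hp⟩ := p
    simp only at hp
    subst hp
    exact le_iSup (fun i => (e (i, j')).fieldRange) i
  · refine iSup_le fun i => ?_
    exact le_iSup (fun p : {p : ι × ι' // p.2 = j} => (e p).fieldRange) ⟨(i, j), rfl⟩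

theorem LDis_Lb (hG : GroupStm.{u}) (hLD : LDis e) : LDis fun j => (Lb e j).val := by
  have h := hG k M (ι × ι') ι' (fun _ => K) e hLD (fun p => p.2)
  have key : ∀ F : ι' → IntermediateField k M, F = Lb e → (LDis fun j => (F j).val) →
      LDis fun j => (Lb e j).val := by
    rintro _ rfl h
    exact h
  exact key _ (funext fun j => Lb_eq e j) h

/-- the maps into the block `j0` -/
def e0 (j0 : ι') (i : ι) : K →ₐ[k] Lb e j0 := rs (e (i, j0)) (Lb e j0) (mem_Lb e i j0)

theorem val_e0 (j0 : ι') (i : ι) (x : K) : ((e0 e j0 i x : Lb e j0) : M) = e (i, j0) x := rfl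

theorem gen_e0 (j0 : ι') : ⨆ i, (e0 e j0 i).fieldRange = ⊤ :=
  gen_rs (fun i => e (i, j0)) (Lb e j0) (fun i => mem_Lb e i j0) rfl

theorem LDis_e0 (hR : ResStm.{u}) (hLD : LDis e) (j0 : ι') : LDis (e0 e j0) := by
  have h := hR k M (ι × ι') ι (fun _ => K) e hLD (fun i => (i, j0))
    (fun a b h => (Prod.mk.inj h).1) (fun _ => K) (fun _ => AlgHom.id k K)
  refine LDis_of_comp (e0 e j0) (Lb e j0).val ?_
  exact h

variable (P : Subgroup (Equiv.Perm ι)) (P' : Subgroup (Equiv.Perm ι'))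

/-- the invariants in the block `j0` -/
def XX (j0 : ι') : IntermediateField k (Lb e j0) :=
  IntermediateField.fixedField (permGrp (e0 e j0) P)

theorem mem_XX {j0 : ι'} {x : Lb e j0} :
    x ∈ XX e P j0 ↔ ∀ σ ∈ permGrp (e0 e j0) P, σ x = x :=
  IntermediateField.mem_fixedField_iff _ _

theorem key (hL : LiftStm.{u}) {j0 j j1 : ι'} (hLD : LDis (e0 e j0)) {s1 s2 σ : M ≃ₐ[k] M}
    (hs1 : ∀ i x, s1 (e (i, j0) x) = e (i, j) x) (hs2 : ∀ i x, s2 (e (i, j0) x) = e (i, j1) x)
    {g : Equiv.Perm ι} (hg : g ∈ P) (hσ : ∀ i x, σ (e (i, j) x) = e (g i, j1) x)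
    (x : Lb e j0) (hx : x ∈ XX e P j0) : σ (s1 x) = s2 x := by
  obtain ⟨τ, hτ⟩ := hL k K (Lb e j0) ι (e0 e j0) hLD (gen_e0 e j0) g
  have h1 : τ x = x := (mem_XX e P).1 hx τ ⟨g, hg, hτ⟩
  have h2 := agree (e0 e j0)
    ((s2 : M →ₐ[k] M).comp ((Lb e j0).val.comp (τ : Lb e j0 →ₐ[k] Lb e j0)))
    ((σ : M →ₐ[k] M).comp ((s1 : M →ₐ[k] M).comp (Lb e j0).val)) (by
      intro i y
      show s2 ((τ (e0 e j0 i y) : Lb e j0) : M) = σ (s1 ((e0 e j0 i y : Lb e j0) : M))
      rw [hτ, val_e0, val_e0, hs1, hs2, hσ]) x (by rw [gen_e0]; trivial)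
  have h3 : s2 ((τ x : Lb e j0) : M) = σ (s1 (x : M)) := h2
  rw [h1] at h3
  exact h3.symm

/-- the group acting in the block `j` -/
def GG (j : ι') : Subgroup (M ≃ₐ[k] M) :=
  permGrp (fun i => e (i, j)) P ⊓ ⨅ j' : {j' // j' ≠ j}, permGrp (fun i => e (i, j'.1)) ⊥

theorem mem_GG {j : ι'} {σ : M ≃ₐ[k] M} : σ ∈ GG e P j ↔
    (∃ g ∈ P, ∀ i x, σ (e (i, j) x) = e (g i, j) x) ∧
      ∀ j', j' ≠ j → ∀ i x, σ (e (i, j') x) = e (i, j') x := by
  unfold GG
  rw [Subgroup.mem_inf, Subgroup.mem_iInf]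
  refine and_congr Iff.rfl ⟨fun h j' hj' i x => ?_, fun h j' => ?_⟩
  · obtain ⟨g, hg, h1⟩ := h ⟨j', hj'⟩
    rw [Subgroup.mem_bot] at hg
    subst hg
    exact h1 i x
  · exact ⟨1, Subgroup.one_mem _, fun i x => h j'.1 j'.2 i x⟩

theorem ext_gen (hgen : ⨆ p, (e p).fieldRange = ⊤) {σ τ : M ≃ₐ[k] M}
    (h : ∀ p x, σ (e p x) = τ (e p x)) : σ = τ := by
  ext x
  exact agree e (σ : M →ₐ[k] M) (τ : M →ₐ[k] M) h x (by rw [hgen]; trivial)

theorem finite_GG (hgen : ⨆ p, (e p).fieldRange = ⊤) (j : ι') : Finite (GG e P j) := by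
  classical
  let φ : GG e P j → Equiv.Perm ι := fun σ => ((mem_GG e P).1 σ.2).1.choose
  have hφ : ∀ σ : GG e P j, ∀ i x, σ.1 (e (i, j) x) = e (φ σ i, j) x := fun σ =>
    ((mem_GG e P).1 σ.2).1.choose_spec.2
  refine Finite.of_injective φ fun σ τ h => ?_
  apply Subtype.ext
  refine ext_gen e hgen fun p x => ?_
  obtain ⟨i, j'⟩ := p
  by_cases hj : j' = j
  · subst hj
    rw [hφ σ, hφ τ, h]
  · rw [((mem_GG e P).1 σ.2).2 j' hj, ((mem_GG e P).1 τ.2).2 j' hj]

/-- permutation of the blocks -/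
def pb (h : Equiv.Perm ι') (g : ι' → Equiv.Perm ι) : Equiv.Perm (ι × ι') where
  toFun p := (g p.2 p.1, h p.2)
  invFun p := ((g (h⁻¹ p.2))⁻¹ p.1, h⁻¹ p.2)
  left_inv := by
    rintro ⟨i, j⟩
    simp
  right_inv := by
    rintro ⟨i, j⟩
    simp

theorem GG_le (j : ι') (hgen : ⨆ p, (e p).fieldRange = ⊤) :
    GG e P j ≤ permGrp e (wrGrp P P') := by
  classical
  intro σ hσ
  obtain ⟨⟨g, hg, h1⟩, h2⟩ := (mem_GG e P).1 hσ
  refine ⟨pb 1 (fun j' => if j' = j then g else 1),
    ⟨1, P'.one_mem, fun j' => if j' = j then g else 1, ?_, fun i j' => rfl⟩, ?_⟩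
  · intro j'
    show (if j' = j then g else 1) ∈ P
    split_ifs
    · exact hg
    · exact P.one_mem
  · rintro ⟨i, j'⟩ x
    show σ (e (i, j') x) = e ((if j' = j then g else 1) i, j') x
    by_cases hj : j' = j
    · subst hj
      rw [if_pos rfl]
      exact h1 i x
    · rw [if_neg hj]
      exact h2 j' hj i x

end setup

section transfer

variable {k M : Type u} [Field k] [Field M] [Algebra k M]

theorem transfer (hIso : IsoRStm.{u}) {M' : IntermediateField k M} {Ψ : IntermediateField k M'}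
    {Φ : IntermediateField k M} (h1 : ∀ x : M', x ∈ Ψ → (x : M) ∈ Φ)
    (h2 : ∀ y ∈ Φ, ∃ h : y ∈ M', (⟨y, h⟩ : M') ∈ Ψ) {B' : Subalgebra k M'} {B : Subalgebra k M}
    (h3 : ∀ x : M', x ∈ Ψ → (x ∈ B' ↔ (x : M) ∈ B)) (h : SPMR k Ψ (B'.comap Ψ.val)) :
    SPMR k Φ (B.comap Φ.val) := by
  let f1 : Ψ →ₐ[k] Φ := rs (M'.val.comp Ψ.val) Φ (fun x => h1 x.1 x.2)
  let f2 : Φ →ₐ[k] Ψ := rs (rs Φ.val M' (fun y => (h2 y.1 y.2).choose)) Ψ
    (fun y => (h2 y.1 y.2).choose_spec)
  let f : Ψ ≃ₐ[k] Φ := AlgEquiv.ofAlgHom f1 f2 (by ext x; rfl) (by ext x; rfl)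
  have h4 := hIso k Ψ Φ f (B'.comap Ψ.val) h
  have h5 : (B'.comap Ψ.val).map (f : Ψ →ₐ[k] Φ) = B.comap Φ.val := by
    ext y
    constructor
    · rintro ⟨x, hx, rfl⟩
      exact (h3 x.1 x.2).1 hx
    · intro hy
      refine ⟨f2 y, ?_, ?_⟩
      · exact (h3 (f2 y).1 (f2 y).2).2 hy
      · exact f.apply_symm_apply y
  rw [h5] at h4
  exact h4

end transfer

theorem wr (hL : LiftStm.{u}) (hG : GroupStm.{u}) (hR : ResStm.{u}) (hGal : GalStm.{u})
    (hI : InvStm.{u}) (hIso : IsoRStm.{u}) : WrRStm.{u} := by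
  intro k _ ι ι' _ _ P P' hP hP' K M _ _ _ _ e hLD hgen A hA
  classical
  rcases isEmpty_or_nonempty ι' with hemp | ⟨⟨j0⟩⟩
  · have hLDe := hR k M (ι × ι') ι' (fun _ => K) e hLD (fun j => hemp.elim j)
      (fun a => hemp.elim a) (fun _ => K) (fun _ => AlgHom.id k K)
    have hemp2 : IsEmpty (ι × ι') := ⟨fun p => hemp.elim p.2⟩
    rw [iSup_of_empty] at hgen
    have h := hP' K M _ hLDe (by rw [iSup_of_empty]; exact hgen) A hA
    have key : ∀ (H H' : Subgroup (M ≃ₐ[k] M)) (B B' : Subalgebra k M), H = H' → B = B' →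
        SPMR k (IntermediateField.fixedField H) (B.comap (IntermediateField.fixedField H).val) →
        SPMR k (IntermediateField.fixedField H')
          (B'.comap (IntermediateField.fixedField H').val) := by
      rintro _ _ _ _ rfl rfl h
      exact h
    refine key _ _ _ _ ?_ ?_ h
    · ext σ
      constructor
      · intro _
        exact ⟨1, Subgroup.one_mem _, fun p => hemp.elim p.2⟩
      · intro _
        exact ⟨1, Subgroup.one_mem _, fun p => hemp.elim p⟩
    · rw [iSup_of_empty, iSup_of_empty]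
  · have hLD0 := LDis_e0 e hR hLD j0
    obtain ⟨AX, hAX⟩ : ∃ AX : Subalgebra k (XX e P j0),
      AX = (⨆ i, A.map (e0 e j0 i)).comap (XX e P j0).val := ⟨_, rfl⟩
    have hX : SPMR k (XX e P j0) AX := by
      rw [hAX]
      exact hP K (Lb e j0) (e0 e j0) hLD0 (gen_e0 e j0) A hA
    have hsex : ∀ j, ∃ s : M ≃ₐ[k] M, ∀ p x, s (e p x) =
        e (pb (Equiv.swap j0 j) (fun _ => (1 : Equiv.Perm ι)) p) x := fun j =>
      hL k K M (ι × ι') e hLD hgen _
    choose s hs using hsex
    have hs1 : ∀ j i x, s j (e (i, j0) x) = e (i, j) x := by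
      intro j i x
      rw [hs]
      show e ((1 : Equiv.Perm ι) i, Equiv.swap j0 j j0) x = e (i, j) x
      rw [Equiv.swap_apply_left]
      rfl
    have hs2 : ∀ j i x, s j (e (i, j) x) = e (i, j0) x := by
      intro j i x
      rw [hs]
      show e ((1 : Equiv.Perm ι) i, Equiv.swap j0 j j) x = e (i, j0) x
      rw [Equiv.swap_apply_right]
      rfl
    have hsm1 : ∀ j, ∀ x ∈ Lb e j0, s j x ∈ Lb e j := fun j =>
      maps (fun i => e (i, j0)) (s j : M →ₐ[k] M) (Lb e j) (fun i x => by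
        show s j (e (i, j0) x) ∈ Lb e j
        rw [hs1]
        exact mem_Lb e i j x)
    have hsm2 : ∀ j, ∀ x ∈ Lb e j, s j x ∈ Lb e j0 := fun j =>
      maps (fun i => e (i, j)) (s j : M →ₐ[k] M) (Lb e j0) (fun i x => by
        show s j (e (i, j) x) ∈ Lb e j0
        rw [hs2]
        exact mem_Lb e i j0 x)
    have hss : ∀ j, ∀ x ∈ Lb e j, s j (s j x) = x := fun j =>
      agree (fun i => e (i, j)) ((s j : M →ₐ[k] M).comp (s j : M →ₐ[k] M)) (AlgHom.id k M)
        (fun i x => by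
          show s j (s j (e (i, j) x)) = e (i, j) x
          rw [hs2, hs1])
    obtain ⟨E, hE⟩ : ∃ E : ι' → XX e P j0 →ₐ[k] M, ∀ j x, E j x = s j ((x : Lb e j0) : M) :=
      ⟨fun j => (s j : M →ₐ[k] M).comp ((Lb e j0).val.comp (XX e P j0).val), fun _ _ => rfl⟩
    have hkey : ∀ (j j1 : ι') (σ : M ≃ₐ[k] M) (g : Equiv.Perm ι), g ∈ P →
        (∀ i x, σ (e (i, j) x) = e (g i, j1) x) → ∀ x, σ (E j x) = E j1 x := by
      intro j j1 σ g hg hσ x
      rw [hE, hE]
      exact key e P hL hLD0 (hs1 j) (hs1 j1) hg hσ x.1 x.2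
    have hblock : ∀ j, Lb e j ⊓ IntermediateField.fixedField (GG e P j) = (E j).fieldRange := by
      intro j
      apply le_antisymm
      · rintro y ⟨hy1, hy2⟩
        have hy2' := (IntermediateField.mem_fixedField_iff _ _).1 hy2
        obtain ⟨x, hx⟩ : ∃ x : Lb e j0, (x : M) = s j y := ⟨⟨s j y, hsm2 j y hy1⟩, rfl⟩
        have hxX : x ∈ XX e P j0 := by
          rw [mem_XX]
          rintro τ ⟨g, hg, hτ⟩
          obtain ⟨σ, hσ⟩ := hL k K M (ι × ι') e hLD hgen
            (pb 1 (fun j' => if j' = j then g else 1))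
          have hσ1 : ∀ i x, σ (e (i, j) x) = e (g i, j) x := by
            intro i x
            rw [hσ]
            show e ((if j = j then g else 1) i, (1 : Equiv.Perm ι') j) x = e (g i, j) x
            rw [if_pos rfl]
            rfl
          have hσG : σ ∈ GG e P j := by
            rw [mem_GG]
            refine ⟨⟨g, hg, hσ1⟩, fun j' hj' i x => ?_⟩
            rw [hσ]
            show e ((if j' = j then g else 1) i, (1 : Equiv.Perm ι') j') x = e (i, j') x
            rw [if_neg hj']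
            rfl
          have h1 := agree (e0 e j0)
            ((Lb e j0).val.comp (τ : Lb e j0 →ₐ[k] Lb e j0))
            ((s j : M →ₐ[k] M).comp ((σ : M →ₐ[k] M).comp ((s j : M →ₐ[k] M).comp
              (Lb e j0).val))) (by
              intro i z
              show ((τ (e0 e j0 i z) : Lb e j0) : M) = s j (σ (s j ((e0 e j0 i z : Lb e j0) : M)))
              rw [hτ, val_e0, val_e0, hs1, hσ1, hs2]) x (by rw [gen_e0]; trivial)
          have h2 : ((τ x : Lb e j0) : M) = s j (σ (s j (x : M))) := h1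
          apply Subtype.ext
          rw [h2, hx, hss j y hy1, hy2' σ hσG]
        refine ⟨⟨x, hxX⟩, ?_⟩
        show E j ⟨x, hxX⟩ = y
        rw [hE]
        show s j (x : M) = y
        rw [hx, hss j y hy1]
      · rintro y ⟨x, rfl⟩
        refine ⟨?_, ?_⟩
        · show E j x ∈ Lb e j
          rw [hE]
          exact hsm1 j _ x.1.2
        · refine (IntermediateField.mem_fixedField_iff _ _).2 fun σ hσ => ?_
          obtain ⟨⟨g, hg, h1⟩, h2⟩ := (mem_GG e P).1 hσ
          exact hkey j j σ g hg h1 x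
    have hGL : ∀ j, ∀ σ ∈ GG e P j, ∀ x ∈ Lb e j, σ x ∈ Lb e j := by
      intro j σ hσ
      obtain ⟨⟨g, hg, h1⟩, h2⟩ := (mem_GG e P).1 hσ
      refine maps (fun i => e (i, j)) (σ : M →ₐ[k] M) (Lb e j) (fun i x => ?_)
      show σ (e (i, j) x) ∈ Lb e j
      rw [h1]
      exact mem_Lb e _ j x
    have hGT : ∀ j j', j ≠ j' → ∀ σ ∈ GG e P j, ∀ x ∈ Lb e j', σ x = x := by
      intro j j' hj σ hσ
      obtain ⟨⟨g, hg, h1⟩, h2⟩ := (mem_GG e P).1 hσ
      exact agree (fun i => e (i, j')) (σ : M →ₐ[k] M) (AlgHom.id k M) (fun i x =>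
        h2 j' hj.symm i x)
    obtain ⟨M', hM'⟩ : ∃ M' : IntermediateField k M,
      M' = IntermediateField.fixedField (⨆ j, GG e P j) := ⟨_, rfl⟩
    have hM'2 : M' = ⨆ j, (E j).fieldRange := by
      have : ∀ j, Finite (GG e P j) := finite_GG e P hgen
      rw [hM', hGal k M ι' (fun j => GG e P j) (Lb e) hGL hGT (iSup_Lb e hgen)]
      exact iSup_congr hblock
    have hEM : ∀ j x, E j x ∈ M' := by
      intro j x
      rw [hM'2]
      have h1 : (E j).fieldRange ≤ ⨆ j, (E j).fieldRange := le_iSup (fun j => (E j).fieldRange) j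
      exact h1 ⟨x, rfl⟩
    obtain ⟨E', hE'⟩ : ∃ E' : ι' → XX e P j0 →ₐ[k] M', E' = fun j => rs (E j) M' (hEM j) :=
      ⟨_, rfl⟩
    have hE'v : ∀ j x, ((E' j x : M') : M) = E j x := by
      intro j x
      rw [hE']
      rfl
    have hgenE' : ⨆ j, (E' j).fieldRange = ⊤ := by
      rw [hE']
      exact gen_rs E M' hEM hM'2
    have hEL : ∀ j x, E j x ∈ Lb e j := by
      intro j x
      rw [hE]
      exact hsm1 j _ x.1.2
    have hLDL := LDis_Lb e hG hLD
    have hLDE' : LDis E' := by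
      have h1 := hR k M ι' ι' (fun j => Lb e j) (fun j => (Lb e j).val) hLDL (fun j => j)
        (fun a b h => h) (fun _ => XX e P j0) (fun j => rs (E j) (Lb e j) (hEL j))
      refine LDis_of_comp E' M'.val ?_
      have h2 : (fun j => M'.val.comp (E' j)) =
          fun j => ((Lb e j).val).comp (rs (E j) (Lb e j) (hEL j)) := by
        funext j
        ext x
        show ((E' j x : M') : M) = E j x
        exact hE'v j x
      rw [h2]
      exact h1
    have hQ := hP' (XX e P j0) M' E' hLDE' hgenE' AX hX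
    -- the algebras
    have hDj : ∀ j, (⨆ i, A.map (e (i, j))) =
        (⨆ i, A.map (e0 e j0 i)).map ((s j : M →ₐ[k] M).comp (Lb e j0).val) := by
      intro j
      rw [(Subalgebra.gc_map_comap _).l_iSup]
      refine iSup_congr fun i => ?_
      rw [Subalgebra.map_map]
      congr 1
      ext x
      show e (i, j) x = s j ((e0 e j0 i x : Lb e j0) : M)
      rw [val_e0, hs1]
    have hD'D : ∀ x : M', x ∈ (⨆ j, AX.map (E' j)) → (x : M) ∈ ⨆ p, A.map (e p) := by
      have h1 : (⨆ j, AX.map (E' j)) ≤ (⨆ p, A.map (e p)).comap M'.val := by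
        refine iSup_le fun j => ?_
        rintro _ ⟨x, hx, rfl⟩
        show ((E' j x : M') : M) ∈ ⨆ p, A.map (e p)
        rw [hE'v, hE]
        have h2 : (⨆ i, A.map (e (i, j))) ≤ ⨆ p, A.map (e p) :=
          iSup_le fun i => le_iSup (fun p => A.map (e p)) (i, j)
        apply h2
        rw [hDj j]
        rw [hAX] at hx
        exact ⟨x.1, hx, rfl⟩
      intro x hx
      exact h1 hx
    have hDD' : ∀ y : M', (y : M) ∈ (⨆ p, A.map (e p)) → y ∈ ⨆ j, AX.map (E' j) := by
      intro y hy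
      have hyfix : ∀ j, ∀ σ ∈ GG e P j, σ (y : M) = y := by
        intro j σ hσ
        have h1 : (y : M) ∈ IntermediateField.fixedField (⨆ j, GG e P j) := by
          rw [← hM']
          exact y.2
        refine (IntermediateField.mem_fixedField_iff _ _).1 h1 σ ?_
        exact (le_iSup (fun j => GG e P j) j) hσ
      have hy2 : (y : M) ∈ ⨆ j, ⨆ i, A.map (e (i, j)) := by
        have h1 : (⨆ p, A.map (e p)) ≤ ⨆ j, ⨆ i, A.map (e (i, j)) := by
          refine iSup_le fun p => ?_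
          obtain ⟨i, j⟩ := p
          exact le_trans (le_iSup (fun i => A.map (e (i, j))) i)
            (le_iSup (fun j => ⨆ i, A.map (e (i, j))) j)
        exact h1 hy
      have h3 := hI k M ι' (fun j => GG e P j) (Lb e) hLDL (fun j => ⨆ i, A.map (e (i, j)))
        (by
          intro j
          have h1 : (⨆ i, A.map (e (i, j))) ≤ (Lb e j).toSubalgebra := by
            refine iSup_le fun i => ?_
            rintro _ ⟨x, hx, rfl⟩
            exact mem_Lb e i j x
          intro x hx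
          exact h1 hx)
        (by
          intro j σ hσ
          obtain ⟨⟨g, hg, h1⟩, h2⟩ := (mem_GG e P).1 hσ
          have h4 : (⨆ i, A.map (e (i, j))) ≤ (⨆ i, A.map (e (i, j))).comap (σ : M →ₐ[k] M) := by
            refine iSup_le fun i => ?_
            rintro _ ⟨x, hx, rfl⟩
            show σ (e (i, j) x) ∈ ⨆ i, A.map (e (i, j))
            rw [h1]
            have h5 : A.map (e (g i, j)) ≤ ⨆ i, A.map (e (i, j)) :=
              le_iSup (fun i => A.map (e (i, j))) (g i)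
            exact h5 ⟨x, hx, rfl⟩
          intro x hx
          exact h4 hx)
        hGT (y : M) hy2 hyfix
      have h4 : (⨆ j, (⨆ i, A.map (e (i, j))) ⊓
          (IntermediateField.fixedField (GG e P j)).toSubalgebra) ≤
          (⨆ j, AX.map (E' j)).map M'.val := by
        refine iSup_le fun j => ?_
        rintro z ⟨hz1, hz2⟩
        have hz3 : z ∈ Lb e j := by
          have h1 : (⨆ i, A.map (e (i, j))) ≤ (Lb e j).toSubalgebra := by
            refine iSup_le fun i => ?_
            rintro _ ⟨x, hx, rfl⟩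
            exact mem_Lb e i j x
          exact h1 hz1
        have hz4 : z ∈ (E j).fieldRange := by
          rw [← hblock j]
          exact ⟨hz3, hz2⟩
        obtain ⟨x, hx⟩ := hz4
        have hx' : E j x = z := hx
        have hz5 : z ∈ (⨆ i, A.map (e (i, j))) := hz1
        rw [hDj j] at hz5
        obtain ⟨w, hw, hwz⟩ := hz5
        have hwz' : s j (w : M) = z := hwz
        have hwx : w = x.1 := by
          apply Subtype.ext
          apply (s j).injective
          rw [hwz', ← hx', hE]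
        have hxA : x ∈ AX := by
          rw [hAX]
          show x.1 ∈ ⨆ i, A.map (e0 e j0 i)
          rw [← hwx]
          exact hw
        refine ⟨E' j x, ?_, ?_⟩
        · have h5 : AX.map (E' j) ≤ ⨆ j, AX.map (E' j) := le_iSup (fun j => AX.map (E' j)) j
          exact h5 ⟨x, hxA, rfl⟩
        · show ((E' j x : M') : M) = z
          rw [hE'v, hx']
      obtain ⟨d, hd, hdy⟩ := h4 h3
      have : d = y := Subtype.ext hdy
      rw [← this]
      exact hd
    refine transfer hIso ?_ ?_ (fun x _ => ⟨hD'D x, hDD' x⟩) hQ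
    · intro x hx
      refine (IntermediateField.mem_fixedField_iff _ _).2 fun σ hσ => ?_
      obtain ⟨f, ⟨h, hh, g, hg, hf⟩, hσf⟩ := hσ
      obtain ⟨τ, hτ⟩ := hL k (XX e P j0) M' ι' E' hLDE' hgenE' h
      have h1 : τ x = x := (IntermediateField.mem_fixedField_iff _ _).1 hx τ ⟨h, hh, hτ⟩
      have h2 := agree E' (M'.val.comp (τ : M' →ₐ[k] M')) ((σ : M →ₐ[k] M).comp M'.val) (by
        intro j z
        show ((τ (E' j z) : M') : M) = σ ((E' j z : M') : M)
        rw [hτ, hE'v, hE'v]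
        refine (hkey j (h j) σ (g j) (hg j) (fun i y => ?_) z).symm
        rw [hσf, hf]) x (by rw [hgenE']; trivial)
      have h3 : ((τ x : M') : M) = σ (x : M) := h2
      rw [h1] at h3
      exact h3.symm
    · intro y hy
      have hy1 := (IntermediateField.mem_fixedField_iff _ _).1 hy
      have hyM : y ∈ M' := by
        rw [hM']
        refine (IntermediateField.mem_fixedField_iff _ _).2 fun σ hσ => hy1 σ ?_
        have h1 : (⨆ j, GG e P j) ≤ permGrp e (wrGrp P P') :=
          iSup_le fun j => GG_le e P P' j hgen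
        exact h1 hσ
      refine ⟨hyM, (IntermediateField.mem_fixedField_iff _ _).2 fun τ hτ => ?_⟩
      obtain ⟨h, hh, hτ⟩ := hτ
      obtain ⟨σ, hσ⟩ := hL k K M (ι × ι') e hLD hgen (pb h (fun _ => 1))
      have hσ1 : σ y = y := hy1 σ ⟨pb h (fun _ => 1),
        ⟨h, hh, fun _ => 1, fun _ => P.one_mem, fun i j => rfl⟩, hσ⟩
      have h2 := agree E' (M'.val.comp (τ : M' →ₐ[k] M')) ((σ : M →ₐ[k] M).comp M'.val) (by
        intro j z
        show ((τ (E' j z) : M') : M) = σ ((E' j z : M') : M)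
        rw [hτ, hE'v, hE'v]
        refine (hkey j (h j) σ 1 P.one_mem (fun i y => ?_) z).symm
        rw [hσ]
        rfl) ⟨y, hyM⟩ (by rw [hgenE']; trivial)
      have h3 : ((τ ⟨y, hyM⟩ : M') : M) = σ y := h2
      apply Subtype.ext
      rw [h3, hσ1]

end Pool.Agent.W351.WR
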